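import Pool.Agent.TH735.AQ.Nec
import Pool.Agent.TH735.AQ.Fib
import Pool.Agent.TH735.AQ.Uniq

set_option autoImplicit false

/-!
# Nef line bundles on torus quotients: all of them are semiample if and only if `H^1(X, O_X) = 0`

Let `X = V / Γ` be the quotient of a complex torus (for instance an abelian variety) by a finite group.
If the group acts freely, `X` is a manifold, and if the linear parts of `Γ` have determinant one, then
`K_X ~ 0`: such `X` with `H^1(X, O_X) = 0` exist from dimension three on (hyperelliptic threefolds with the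
group `(ℤ/2)²`), and they are neither simply connected nor hyperkähler.

`IsTorusQuotient` and `LineBundle` are defined in `Pool.Agent.W594.SYZ.Defs2`; `IsChernForm`,
`IsNefForm`, `IsPositiveForm` and `Induces` in `Pool.Agent.W594.SYZ.TQDefs`; `HOneZero`, `IsFibration`,
`IsSemiample` and `IsFlat` in `Pool.Agent.TH735.AQ.Defs`.
-/

namespace Pool.Agent.Results.MP_5ee2d0_ag.TorusQuotientsTrivialCanonical

open Pool.Agent.W594.SYZ2 Pool.Agent.TH735.AQ

variable {V : Type*} [NormedAddCommGroup V] [NormedSpace ℂ V]

/-- Every nef line bundle on `X = V / Γ` is semiample. -/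
def NefIsSemiample (Γ : Subgroup (V ≃ᵃ[ℂ] V)) : Prop :=
  ∀ (L : LineBundle Γ) (H : V → V → ℂ), IsChernForm L H → IsNefForm H → IsSemiample L

/-- Every numerically trivial line bundle on `X = V / Γ` which is given by a unitary character is semiample
(that is, torsion). -/
def FlatIsSemiample (Γ : Subgroup (V ≃ᵃ[ℂ] V)) : Prop :=
  ∀ P : LineBundle Γ, IsFlat P → IsSemiample P

/-- Some positive power of the line bundle `L` with Chern form `H` is the pullback of an ample line bundle
under a fibration with connected fibres onto a torus quotient, whose fibres are the images of the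
translates of the kernel of `H`. -/
def FibresOverKernel {Γ : Subgroup (V ≃ᵃ[ℂ] V)} (L : LineBundle Γ) (H : V → V → ℂ) : Prop :=
  ∃ (n : ℕ) (Δ : Subgroup ((Fin n → ℂ) ≃ᵃ[ℂ] (Fin n → ℂ))) (π : V →ₗ[ℂ] (Fin n → ℂ)),
    (∀ v, π v = 0 ↔ ∀ w, H v w = 0) ∧ IsFibration Γ Δ π ∧ Induces L Δ π

/-- Let `X = V / Γ` be the quotient of a complex torus of any dimension by any finite group. The following
are equivalent: `H^1(X, O_X) = 0`; every nef line bundle on `X` is semiample; every flat line bundle on `X`
is semiample. In this case a line bundle `L` with Chern form `H` is nef if and only if a positive power of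
it is the pullback of an ample line bundle under the fibration given by the kernel of `H`. -/
theorem result [FiniteDimensional ℂ V] (Γ : Subgroup (V ≃ᵃ[ℂ] V)) (hΓ : IsTorusQuotient Γ) :
    (HOneZero Γ ↔ NefIsSemiample Γ) ∧ (HOneZero Γ ↔ FlatIsSemiample Γ) ∧
    (HOneZero Γ → ∀ (L : LineBundle Γ) (H : V → V → ℂ), IsChernForm L H →
      (IsNefForm H ↔ FibresOverKernel L H)) := by
  have h1 : HOneZero Γ → NefIsSemiample Γ := by
    intro h01 L H hc hn
    obtain ⟨n, Δ, π, -, h2, h3⟩ := semiample hΓ h01 hc hn
    exact ⟨n, Δ, π, h2, h3⟩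
  have h2 : NefIsSemiample Γ → FlatIsSemiample Γ := by
    intro h P hP
    exact h P _ (chern_of_flat hP) (fun v => le_refl _)
  have h3 : FlatIsSemiample Γ → HOneZero Γ := by
    intro h
    by_contra h01
    obtain ⟨P, hP, hno⟩ := exists_flat hΓ h01
    obtain ⟨n, Δ, π, h4, h5⟩ := h P hP
    exact hno n Δ π h4 h5
  refine ⟨⟨h1, fun h => h3 (h2 h)⟩, ⟨fun h => h2 (h1 h), h3⟩, fun h01 L H hc => ⟨fun hn => ?_, ?_⟩⟩
  · exact semiample hΓ h01 hc hn
  · rintro ⟨n, Δ, π, -, h4, h5⟩
    exact (nef_of_induces hΓ hc h4 h5).1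

end Pool.Agent.Results.MP_5ee2d0_ag.TorusQuotientsTrivialCanonical
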